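import Mathlib

/-!
# Irreducible monoids of matrices: Burnside's theorem, finiteness
-/

set_option autoImplicit false

namespace Pool.Agent.V8H88.OM

open Matrix Module

/-- Burnside's theorem -/
theorem burn {k V M : Type} [Field k] [IsAlgClosed k] [Monoid M] [AddCommGroup V]
    [Module k V] [FiniteDimensional k V] [Nontrivial V] (φ : M →* Module.End k V)
    (hirr : ∀ W : Submodule k V, (∀ g, ∀ w ∈ W, φ g w ∈ W) → W = ⊥ ∨ W = ⊤)
    (Z : Module.End k V) : Z ∈ Submodule.span k (Set.range φ) := by
  classical
  set R : Subalgebra k (Module.End k V) := Algebra.adjoin k (Set.range φ) with hR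
  have hsm : ∀ (r : R) (w : V), r • w = r.1 w := fun r w => rfl
  have hsimple : IsSimpleModule R V := by
    have h0 : ∀ U : Submodule R V, U = ⊥ ∨ U = ⊤ := by
      intro U
      rcases hirr (U.restrictScalars k) (fun g w hw => by
        have h1 : (⟨φ g, Algebra.subset_adjoin ⟨g, rfl⟩⟩ : R) • w ∈ U := U.smul_mem _ hw
        exact h1) with h1 | h1
      · left
        rw [eq_bot_iff]
        intro x hx
        have h2 : x ∈ U.restrictScalars k := hx
        rw [h1] at h2
        exact h2
      · right
        rw [eq_top_iff]
        intro x _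
        have h2 : x ∈ U.restrictScalars k := by
          rw [h1]
          trivial
        exact h2
    rw [isSimpleModule_iff]
    exact { eq_bot_or_eq_top := h0 }
  have hall : Z ∈ R := by
    let f : Module.End (Module.End R V) V :=
      { toFun := fun w => Z w
        map_add' := map_add Z
        map_smul' := by
          intro P w
          let P' : Module.End k V :=
            { toFun := fun w => P w
              map_add' := map_add P
              map_smul' := fun c w => by
                have h1 : c • w = (algebraMap k R c) • w := by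
                  rw [hsm]
                  rfl
                have h2 : c • P w = (algebraMap k R c) • P w := by
                  rw [hsm]
                  rfl
                rw [h1, map_smul, RingHom.id_apply, h2] }
          obtain ⟨c, hc⟩ := Module.End.exists_eigenvalue P'
          have hst := hirr (Module.End.eigenspace P' c) (fun g w hw => by
            rw [Module.End.mem_eigenspace_iff] at hw ⊢
            have h2 : P' (φ g w) = φ g (P' w) := by
              have h3 : φ g w = (⟨φ g, Algebra.subset_adjoin ⟨g, rfl⟩⟩ : R) • w := rfl
              have h4 : φ g (P' w) = (⟨φ g, Algebra.subset_adjoin ⟨g, rfl⟩⟩ : R) • P w := rfl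
              rw [h4]
              change P (φ g w) = _
              rw [h3, map_smul]
            rw [h2, hw, map_smul])
          rcases hst with hst | hst
          · exact absurd hst hc
          · have h5 : ∀ x : V, P x = c • x := by
              intro x
              have h6 : x ∈ Module.End.eigenspace P' c := by
                rw [hst]
                trivial
              rw [Module.End.mem_eigenspace_iff] at h6
              exact h6
            change Z (P w) = P (Z w)
            rw [h5, h5, map_smul] }
    obtain ⟨r, hr⟩ := jacobson_density (R := R) f (Finset.univ.image (Module.finBasis k V))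
    have h1 : Z = r.1 := by
      refine (Module.finBasis k V).ext fun i => ?_
      exact hr (Module.finBasis k V i) (Finset.mem_image_of_mem _ (Finset.mem_univ i))
    rw [h1]
    exact r.2
  have h1 : Z ∈ Subalgebra.toSubmodule R := hall
  rw [hR, Algebra.adjoin_eq_span, ← MonoidHom.coe_mrange, Submonoid.closure_eq] at h1
  exact h1

variable {k : Type} [Field k] {m : Type} [Fintype m] [DecidableEq m]

/-- Burnside's theorem for matrices -/
theorem burnM [IsAlgClosed k] [Nonempty m] (Z : Submonoid (Matrix m m k))
    (hirr : ∀ U : Submodule k (m → k), (∀ A ∈ Z, ∀ x ∈ U, A *ᵥ x ∈ U) → U = ⊥ ∨ U = ⊤)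
    (X : Matrix m m k) : X ∈ Submodule.span k (Z : Set (Matrix m m k)) := by
  let e : Matrix m m k ≃ₐ[k] Module.End k (m → k) := Matrix.toLinAlgEquiv'
  let φ : Z →* Module.End k (m → k) := (e : Matrix m m k →* Module.End k (m → k)).comp Z.subtype
  have h1 := burn φ (fun U hU => hirr U fun A hA x hx => by
    have := hU ⟨A, hA⟩ x hx
    simpa [φ, e] using this) (e X)
  have h2 : Set.range φ = e.toLinearMap '' (Z : Set (Matrix m m k)) := by
    ext y
    constructor
    · rintro ⟨A, rfl⟩
      exact ⟨A.1, A.2, rfl⟩
    · rintro ⟨A, hA, rfl⟩
      exact ⟨⟨A, hA⟩, rfl⟩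
  rw [h2, ← Submodule.map_span] at h1
  obtain ⟨Y, hY, hYX⟩ := h1
  have h3 : Y = X := e.injective hYX
  rwa [← h3]

theorem eq_of_trace {A B : Matrix m m k} (h : ∀ X : Matrix m m k, (A * X).trace = (B * X).trace) :
    A = B := by
  ext i j
  have h1 := h (Matrix.single j i 1)
  have key : ∀ C : Matrix m m k, (C * Matrix.single j i (1 : k)).trace = C i j := by
    intro C
    rw [Matrix.trace_mul_comm, Matrix.trace, Finset.sum_eq_single j]
    · simp [Matrix.diag, Matrix.mul_apply, Matrix.single_apply]
    · intro b _ hb
      simp [Matrix.diag, Matrix.mul_apply, hb.symm]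
    · intro h; exact absurd (Finset.mem_univ _) h
  rwa [key, key] at h1

/-- finitely many traces -/
theorem finite_of_trace (Z : Submonoid (Matrix m m k))
    (hsp : ∀ X, X ∈ Submodule.span k (Z : Set (Matrix m m k))) (T : Set k) (hT : T.Finite)
    (htr : ∀ A ∈ Z, A.trace ∈ T) : (Z : Set (Matrix m m k)).Finite := by
  classical
  have h1 : ∀ p : m × m, ∃ F : Finset (Matrix m m k), (F : Set (Matrix m m k)) ⊆ Z ∧
      Matrix.single p.1 p.2 (1 : k) ∈ Submodule.span k (F : Set (Matrix m m k)) :=
    fun p => Submodule.mem_span_finite_of_mem_span (hsp _)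
  choose F hF hF' using h1
  set G : Finset (Matrix m m k) := Finset.univ.biUnion F with hG
  have hGZ : ∀ B ∈ G, B ∈ Z := by
    intro B hB
    rw [hG, Finset.mem_biUnion] at hB
    obtain ⟨p, -, hp⟩ := hB
    exact hF p hp
  have hGsp : ∀ X : Matrix m m k, X ∈ Submodule.span k (G : Set (Matrix m m k)) := by
    intro X
    rw [Matrix.matrix_eq_sum_single X]
    refine Submodule.sum_mem _ fun i _ => Submodule.sum_mem _ fun j _ => ?_
    have h2 : Matrix.single i j (X i j) = X i j • Matrix.single i j (1 : k) := by
      rw [Matrix.smul_single, smul_eq_mul, mul_one]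
    rw [h2]
    refine Submodule.smul_mem _ _ (Submodule.span_mono ?_ (hF' (i, j)))
    intro B hB
    rw [hG]
    exact Finset.mem_coe.mpr (Finset.mem_biUnion.mpr ⟨(i, j), Finset.mem_univ _, hB⟩)
  let Ψ : Matrix m m k → (G → k) := fun A B => (A * B.1).trace
  have hinj : Function.Injective Ψ := by
    intro A A' h
    apply eq_of_trace
    intro X
    induction hGsp X using Submodule.span_induction with
    | mem B hB => exact congrFun h ⟨B, hB⟩
    | zero => simp
    | add x y _ _ hx hy => rw [mul_add, mul_add, trace_add, trace_add, hx, hy]
    | smul c x _ hx => rw [mul_smul_comm, mul_smul_comm, trace_smul, trace_smul, hx]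
  have hfin : (Set.pi Set.univ fun _ : G => T).Finite := Set.Finite.pi fun _ => hT
  refine Set.Finite.of_finite_image (hfin.subset ?_) hinj.injOn
  rintro _ ⟨A, hA, rfl⟩
  intro B _
  exact htr _ (Z.mul_mem hA (hGZ B.1 B.2))

end Pool.Agent.V8H88.OM
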