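import Pool.Agent.V8H88.FS.Crt

/-!
# Tensor products of copies of two representations
-/

set_option autoImplicit false

namespace Pool.Agent.V8H88.OM

open Matrix Pool.Agent.V8H88.GO Pool.Agent.V8H88.FS

variable {k Γ : Type} [Field k] [Group Γ]

/-- `IsMixedPower V V' U`: the representation `U` is a tensor product of some copies of `V`, `V'` and
their duals (possibly none). -/
inductive IsMixedPower {n n' : Type} [Fintype n] [DecidableEq n] [Fintype n'] [DecidableEq n']
    (V : Γ →* Matrix n n k) (V' : Γ →* Matrix n' n' k) :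
    (ι : Type) → (_ : Fintype ι) → (_ : DecidableEq ι) → (Γ →* Matrix ι ι k) → Prop
  | one : IsMixedPower V V' Unit _ _ (trivialRep k Γ)
  | mul {ι : Type} {a : Fintype ι} {b : DecidableEq ι} {U : Γ →* Matrix ι ι k} :
      IsMixedPower V V' ι a b U → IsMixedPower V V' (n × ι) _ _ (tensor V U)
  | mulDual {ι : Type} {a : Fintype ι} {b : DecidableEq ι} {U : Γ →* Matrix ι ι k} :
      IsMixedPower V V' ι a b U → IsMixedPower V V' (n × ι) _ _ (tensor (dual V) U)
  | mul' {ι : Type} {a : Fintype ι} {b : DecidableEq ι} {U : Γ →* Matrix ι ι k} :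
      IsMixedPower V V' ι a b U → IsMixedPower V V' (n' × ι) _ _ (tensor V' U)
  | mulDual' {ι : Type} {a : Fintype ι} {b : DecidableEq ι} {U : Γ →* Matrix ι ι k} :
      IsMixedPower V V' ι a b U → IsMixedPower V V' (n' × ι) _ _ (tensor (dual V') U)

variable {n n' : Type} [Fintype n] [DecidableEq n] [Fintype n'] [DecidableEq n']
  (V : Γ →* Matrix n n k) (V' : Γ →* Matrix n' n' k)

theorem RA_sumRep_le : RA (sumRep V V') ≤ Algebra.adjoin k (gens V ∪ gens V') := by
  unfold RA
  rw [Algebra.adjoin_le_iff]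
  rintro _ (⟨⟨i | i, j | j⟩, rfl⟩ | ⟨⟨i | i, j | j⟩, rfl⟩)
  · exact Algebra.subset_adjoin (Or.inl (ent_mem V i j))
  · exact Subalgebra.zero_mem _
  · exact Subalgebra.zero_mem _
  · exact Algebra.subset_adjoin (Or.inr (ent_mem V' i j))
  · exact Algebra.subset_adjoin (Or.inl (ent_inv_mem V i j))
  · exact Subalgebra.zero_mem _
  · exact Subalgebra.zero_mem _
  · exact Algebra.subset_adjoin (Or.inr (ent_inv_mem V' i j))

/-- Products of generators are coefficients of mixed tensor powers. -/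
theorem closure_coef' (b : Γ → k) (hb : b ∈ Submonoid.closure (gens V ∪ gens V')) :
    ∃ (ι : Type) (x : Fintype ι) (y : DecidableEq ι) (U : Γ →* Matrix ι ι k) (p q : ι),
      IsMixedPower V V' ι x y U ∧ b = ent U p q := by
  induction hb using Submonoid.closure_induction_left with
  | one => exact ⟨Unit, _, _, trivialRep k Γ, (), (), IsMixedPower.one, by
      funext g; simp [ent, trivialRep]⟩
  | mul_left a ha b hb ih =>
    obtain ⟨ι, x, y, U, p, q, hU, rfl⟩ := ih
    rcases ha with (⟨r, rfl⟩ | ⟨r, rfl⟩) | (⟨r, rfl⟩ | ⟨r, rfl⟩)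
    · refine ⟨n × ι, _, _, tensor V U, (r.1, p), (r.2, q), IsMixedPower.mul hU, ?_⟩
      funext g; simp [ent, tensor]
    · refine ⟨n × ι, _, _, tensor (dual V) U, (r.2, p), (r.1, q), IsMixedPower.mulDual hU, ?_⟩
      funext g; simp [ent, tensor, dual]
    · refine ⟨n' × ι, _, _, tensor V' U, (r.1, p), (r.2, q), IsMixedPower.mul' hU, ?_⟩
      funext g; simp [ent, tensor]
    · refine ⟨n' × ι, _, _, tensor (dual V') U, (r.2, p), (r.1, q), IsMixedPower.mulDual' hU, ?_⟩
      funext g; simp [ent, tensor, dual]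

/-- An irreducible representation whose coefficients are polynomials in those of `V`, `V'` and their
duals is a subquotient of a mixed tensor power. -/
theorem exists_sub' {m : Type} [Fintype m] [DecidableEq m] {W : Γ →* Matrix m m k}
    (hW : IsIrreducible W) (h : ∀ i j, ent W i j ∈ RA (sumRep V V')) :
    ∃ (ι : Type) (x : Fintype ι) (y : DecidableEq ι) (U : Γ →* Matrix ι ι k),
      IsMixedPower V V' ι x y U ∧ IsSubquotient W U := by
  classical
  obtain ⟨i⟩ := hW.1
  have h1 : ∀ j, ∃ T : Finset (Γ → k),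
      (T : Set (Γ → k)) ⊆ (Submonoid.closure (gens V ∪ gens V') : Set _) ∧
      ent W i j ∈ Submodule.span k (T : Set (Γ → k)) := by
    intro j
    have h2 := RA_sumRep_le V V' (h i j)
    rw [← Subalgebra.mem_toSubmodule, Algebra.adjoin_eq_span] at h2
    exact Submodule.mem_span_finite_of_mem_span h2
  choose T hT hT' using h1
  set T0 : Finset (Γ → k) := Finset.univ.biUnion T with hT0
  have h3 : LinearMap.range (row W i) ≤ ⨆ t ∈ T0, ET t := by
    rintro _ ⟨w, rfl⟩
    have h4 : row W i w = ∑ j, w j • ent W i j := by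
      funext x
      rw [Finset.sum_apply]
      simp [Pool.Agent.V8H88.GO.row_apply, mulVec, dotProduct, ent, mul_comm]
    rw [h4]
    refine Submodule.sum_mem _ fun j _ => Submodule.smul_mem _ _ ?_
    have h5 : Submodule.span k (T j : Set (Γ → k)) ≤ ⨆ t ∈ T0, ET t := by
      rw [Submodule.span_le]
      intro t ht
      have h6 : t ∈ T0 := Finset.mem_biUnion.mpr ⟨j, Finset.mem_univ j, ht⟩
      have h7 : ET t ≤ ⨆ t ∈ T0, ET t := le_iSup₂_of_le t h6 le_rfl
      exact h7 (Submodule.subset_span ⟨1, rt_one t⟩)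
    exact h5 (hT' j)
  obtain ⟨t, ht, E, hE, h8, h9⟩ := exists_step hW i T0 h3
  have h10 : t ∈ Submonoid.closure (gens V ∪ gens V') := by
    rw [hT0, Finset.mem_biUnion] at ht
    obtain ⟨j, -, hj⟩ := ht
    exact hT j hj
  obtain ⟨ι, x, y, U, p, q, hU, rfl⟩ := closure_coef' V V' t h10
  exact ⟨ι, x, y, U, hU, sub_of_step hW i U p q E hE h8 h9⟩

section coh

open NumberField IsDedekindDomain Pool.Agent.W401.Cheb

variable {K : Type} [Field K] [NumberField K] (H : Cohomology K)

/-- Mixed tensor powers of cohomology groups are subquotients of cohomology groups. -/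
theorem mixedPower_sub (p : ℕ) [Fact p.Prime] (x e : H.Obj) {l : Type} {a : Fintype l}
    {b : DecidableEq l} {U : GK K →* Matrix l l (PadicAlgCl p)}
    (hU : IsMixedPower (H.rep p x) (H.rep p e) l a b U) : ∃ y, IsSubquotient U (H.rep p y) := by
  induction hU with
  | one =>
    obtain ⟨y, hy⟩ := H.unit
    exact ⟨y, hy p⟩
  | mul _ ih =>
    obtain ⟨y, hy⟩ := ih
    obtain ⟨z, hz⟩ := H.tensor x y
    exact ⟨z, (IsSubquotient.tensor (IsSubquotient.refl _) hy).trans (hz p)⟩
  | mulDual _ ih =>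
    obtain ⟨y, hy⟩ := ih
    obtain ⟨x', hx'⟩ := H.dual x
    obtain ⟨z, hz⟩ := H.tensor x' y
    exact ⟨z, (IsSubquotient.tensor (hx' p) hy).trans (hz p)⟩
  | mul' _ ih =>
    obtain ⟨y, hy⟩ := ih
    obtain ⟨z, hz⟩ := H.tensor e y
    exact ⟨z, (IsSubquotient.tensor (IsSubquotient.refl _) hy).trans (hz p)⟩
  | mulDual' _ ih =>
    obtain ⟨y, hy⟩ := ih
    obtain ⟨x', hx'⟩ := H.dual e
    obtain ⟨z, hz⟩ := H.tensor x' y
    exact ⟨z, (IsSubquotient.tensor (hx' p) hy).trans (hz p)⟩

end coh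

end Pool.Agent.V8H88.OM
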