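import Pool.Agent.V8H88.OM.Burn
import Pool.Agent.V8H88.GO.Grp
import Pool.Agent.V8H88.GO.Subq

/-!
# Invariant sets of matrices of determinant one whose eigenvalues are roots of unity of odd order
-/

set_option autoImplicit false

namespace Pool.Agent.V8H88.OM

open Matrix Pool.Agent.V8H88.GO

variable {k : Type} [Field k]

/-- the determinant of two vectors -/
def dt (x y : Fin 2 → k) : k := x 0 * y 1 - x 1 * y 0

theorem cramer (x y z : Fin 2 → k) : dt x y • z = dt z y • x + dt x z • y := by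
  ext i
  fin_cases i <;> simp [dt] <;> ring

theorem prop_of_dt {x y : Fin 2 → k} (hx : x ≠ 0) (h : dt x y = 0) : ∃ c : k, y = c • x := by
  unfold dt at h
  by_cases h0 : x 0 = 0
  · have h1 : x 1 ≠ 0 := by
      intro h1
      apply hx
      ext i; fin_cases i <;> simp [h0, h1]
    have h2 : y 0 = 0 := by
      rw [h0, zero_mul, zero_sub, neg_eq_zero] at h
      exact (mul_eq_zero.mp h).resolve_left h1
    refine ⟨y 1 / x 1, ?_⟩
    ext i; fin_cases i
    · simp [h0, h2]
    · simp [h1]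
  · refine ⟨y 0 / x 0, ?_⟩
    ext i; fin_cases i
    · simp [h0]
    · simp only [Fin.mk_one, Pi.smul_apply, smul_eq_mul]
      field_simp
      linear_combination h

/-- `x` spans a line which is stable under `A` -/
def Eig (A : Matrix (Fin 2) (Fin 2) k) (x : Fin 2 → k) : Prop := ∃ c : k, A *ᵥ x = c • x

theorem scalar_of_three {A : Matrix (Fin 2) (Fin 2) k} {x y z : Fin 2 → k} (hxy : dt x y ≠ 0)
    (hxz : dt x z ≠ 0) (hzy : dt z y ≠ 0) (hx : Eig A x) (hy : Eig A y) (hz : Eig A z) :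
    ∃ c : k, A = c • (1 : Matrix (Fin 2) (Fin 2) k) := by
  obtain ⟨a, ha⟩ := hx
  obtain ⟨b, hb⟩ := hy
  obtain ⟨c, hc⟩ := hz
  have h1 : A *ᵥ (dt x y • z) = c • (dt x y • z) := by rw [mulVec_smul, hc, smul_comm]
  rw [cramer x y z, mulVec_add, mulVec_smul, mulVec_smul, ha, hb] at h1
  have e0 := congrFun h1 0
  have e1 := congrFun h1 1
  simp only [Pi.add_apply, Pi.smul_apply, smul_eq_mul] at e0 e1
  have h2 : dt z y * (a - c) * dt x y = 0 := by
    have : dt z y * (a - c) * dt x y = (dt z y * (a * x 0) + dt x z * (b * y 0) -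
      c * (dt z y * x 0 + dt x z * y 0)) * y 1 - (dt z y * (a * x 1) + dt x z * (b * y 1) -
      c * (dt z y * x 1 + dt x z * y 1)) * y 0 := by
      unfold dt; ring
    rw [this, e0, e1]; ring
  have h3 : dt x z * (b - c) * dt x y = 0 := by
    have : dt x z * (b - c) * dt x y = -((dt z y * (a * x 0) + dt x z * (b * y 0) -
      c * (dt z y * x 0 + dt x z * y 0)) * x 1 - (dt z y * (a * x 1) + dt x z * (b * y 1) -
      c * (dt z y * x 1 + dt x z * y 1)) * x 0) := by
      unfold dt; ring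
    rw [this, e0, e1]; ring
  have h4 : a = c := by
    have := (mul_eq_zero.mp ((mul_eq_zero.mp h2).resolve_right hxy)).resolve_left hzy
    exact sub_eq_zero.mp this
  have h5 : b = c := by
    have := (mul_eq_zero.mp ((mul_eq_zero.mp h3).resolve_right hxy)).resolve_left hxz
    exact sub_eq_zero.mp this
  subst h4
  subst h5
  refine ⟨b, ?_⟩
  have h6 : ∀ w : Fin 2 → k, A *ᵥ w = b • w := by
    intro w
    have h7 : dt x y • (A *ᵥ w) = dt x y • (b • w) := by
      rw [← mulVec_smul, cramer x y w, mulVec_add, mulVec_smul, mulVec_smul, ha, hb,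
        smul_comm (dt x y), cramer x y w, smul_add, smul_comm b, smul_comm b]
    exact smul_right_injective _ hxy h7
  apply Matrix.toLin'.injective
  ext w : 2
  simp [h6]

section traces

/-- Cayley-Hamilton for determinant one -/
theorem sq_eq {A : Matrix (Fin 2) (Fin 2) k} (h : A.det = 1) : A * A = A.trace • A - 1 := by
  rw [det_fin_two] at h
  ext i j
  fin_cases i <;> fin_cases j <;>
    simp [Matrix.mul_apply, Fin.sum_univ_two, Matrix.trace_fin_two] <;> first
      | linear_combination -h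
      | linear_combination h
      | ring

theorem det_sub_one {A : Matrix (Fin 2) (Fin 2) k} (h : A.det = 1) :
    (A - 1).det = 2 - A.trace := by
  rw [det_fin_two] at h
  rw [det_fin_two]
  simp [Matrix.trace_fin_two]
  linear_combination h

theorem trace_rec {A : Matrix (Fin 2) (Fin 2) k} (h : A.det = 1) (n : ℕ) :
    (A ^ (n + 2)).trace = A.trace * (A ^ (n + 1)).trace - (A ^ n).trace := by
  rw [pow_add, pow_two, sq_eq h, mul_sub, mul_one, mul_smul_comm, ← pow_succ, trace_sub,
    trace_smul, smul_eq_mul]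

theorem trace_pow {A : Matrix (Fin 2) (Fin 2) k} (h : A.det = 1) {a : k} (ha : a ≠ 0)
    (ht : A.trace = a + a⁻¹) (n : ℕ) : (A ^ n).trace = a ^ n + (a⁻¹) ^ n ∧
      (A ^ (n + 1)).trace = a ^ (n + 1) + (a⁻¹) ^ (n + 1) := by
  induction n with
  | zero =>
    refine ⟨?_, ?_⟩
    · rw [pow_zero, pow_zero, pow_zero, trace_one]; norm_num
    · rw [zero_add, pow_one, pow_one, pow_one, ht]
  | succ n ih =>
    refine ⟨ih.2, ?_⟩
    rw [trace_rec h n, ih.1, ih.2, ht]
    have h1 : a * a⁻¹ = 1 := mul_inv_cancel₀ ha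
    have h2 : a ^ (n + 1) * a⁻¹ = a ^ n := by rw [pow_succ, mul_assoc, h1, mul_one]
    have h3 : (a⁻¹) ^ (n + 1) * a = (a⁻¹) ^ n := by
      rw [pow_succ, mul_assoc, mul_comm a⁻¹ a, h1, mul_one]
    have h4 : a ^ (n + 1 + 1) = a ^ (n + 1) * a := pow_succ _ _
    have h5 : (a⁻¹) ^ (n + 1 + 1) = (a⁻¹) ^ (n + 1) * a⁻¹ := pow_succ _ _
    rw [h4, h5]
    linear_combination h2 + h3

/-- the trace when a power has the eigenvalue one -/
theorem trace_mem [IsAlgClosed k] {A : Matrix (Fin 2) (Fin 2) k} (h : A.det = 1) {M : ℕ}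
    (hM : (A ^ M - 1).det = 0) : ∃ a : k, a ^ M = 1 ∧ a ≠ 0 ∧ A.trace = a + a⁻¹ := by
  obtain ⟨a, ha⟩ := IsAlgClosed.exists_root
    (Polynomial.X ^ 2 - Polynomial.C A.trace * Polynomial.X + 1 : Polynomial k) (by
      have : (Polynomial.X ^ 2 - Polynomial.C A.trace * Polynomial.X + 1 : Polynomial k).degree
        = 2 := by compute_degree!
      rw [this]; norm_num)
  have h1 : a ^ 2 - A.trace * a + 1 = 0 := by
    have := ha.eq_zero
    simpa using this
  have h0 : a ≠ 0 := by
    rintro rfl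
    simp at h1
  have ht : A.trace = a + a⁻¹ := by
    field_simp
    linear_combination -h1
  have h2 : (A ^ M).det = 1 := by rw [det_pow, h, one_pow]
  rw [det_sub_one h2, (trace_pow h h0 ht M).1, inv_pow] at hM
  refine ⟨a, ?_, h0, ht⟩
  have h3 : a ^ M ≠ 0 := pow_ne_zero _ h0
  have h4 : (a ^ M - 1) ^ 2 = 0 := by
    field_simp at hM
    linear_combination -hM
  exact sub_eq_zero.mp (pow_eq_zero_iff (two_ne_zero) |>.mp h4)

/-- finite order -/
theorem pow_eq_one [CharZero k] {A : Matrix (Fin 2) (Fin 2) k} (h : A.det = 1) {M n : ℕ}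
    (hM : (A ^ M - 1).det = 0) (hn : 0 < n) (hA : A ^ n = 1) : A ^ M = 1 := by
  set U := A ^ M with hU
  have h2 : U.det = 1 := by rw [hU, det_pow, h, one_pow]
  have h3 : U.trace = 2 := by
    rw [det_sub_one h2] at hM
    linear_combination -hM
  have h4 : U * U = U + U - 1 := by
    rw [sq_eq h2, h3, ← two_smul k U]
  have h5 : ∀ j : ℕ, U ^ j = 1 + (j : k) • (U - 1) := by
    intro j
    induction j with
    | zero => simp
    | succ j ih =>
      rw [pow_succ, ih, add_mul, one_mul, smul_mul_assoc, sub_mul, one_mul, h4]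
      push_cast
      rw [add_smul, one_smul, show U + U - 1 - U = U - 1 by abel]
      abel
  have h6 : U ^ n = 1 := by rw [hU, ← pow_mul, mul_comm, pow_mul, hA, one_pow]
  rw [h5 n, add_eq_left] at h6
  rcases smul_eq_zero.mp h6 with h7 | h7
  · exact absurd h7 (Nat.cast_ne_zero.mpr hn.ne')
  · exact sub_eq_zero.mp h7

end traces

/-- an irreducible group of matrices of determinant one cannot have odd exponent -/
theorem no_irr [IsAlgClosed k] [CharZero k] (Z : Submonoid (Matrix (Fin 2) (Fin 2) k))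
    (hdet : ∀ A ∈ Z, A.det = 1) {M : ℕ} (hodd : Odd M) (hM : ∀ A ∈ Z, (A ^ M - 1).det = 0)
    (hno : ∀ x : Fin 2 → k, x ≠ 0 → ∃ A ∈ Z, ¬ Eig A x) : False := by
  classical
  have hM0 : 0 < M := hodd.pos
  have hirr : ∀ U : Submodule k (Fin 2 → k), (∀ A ∈ Z, ∀ x ∈ U, A *ᵥ x ∈ U) →
      U = ⊥ ∨ U = ⊤ := by
    intro U hU
    by_cases hb : U = ⊥
    · exact Or.inl hb
    right
    obtain ⟨x, hxU, hx⟩ := (Submodule.ne_bot_iff U).mp hb
    obtain ⟨A, hA, hAx⟩ := hno x hx
    have h1 : dt x (A *ᵥ x) ≠ 0 := by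
      intro h0
      obtain ⟨c, hc⟩ := prop_of_dt hx h0
      exact hAx ⟨c, hc⟩
    rw [eq_top_iff]
    intro w _
    have h2 : dt x (A *ᵥ x) • w ∈ U := by
      rw [cramer]
      exact U.add_mem (U.smul_mem _ hxU) (U.smul_mem _ (hU A hA x hxU))
    have h3 := U.smul_mem (dt x (A *ᵥ x))⁻¹ h2
    rwa [smul_smul, inv_mul_cancel₀ h1, one_smul] at h3
  -- finiteness
  have hfin : (Z : Set (Matrix (Fin 2) (Fin 2) k)).Finite := by
    refine finite_of_trace Z (burnM Z hirr) ((fun a : k => a + a⁻¹) '' {a : k | a ^ M = 1}) ?_ ?_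
    · refine Set.Finite.image _ ?_
      have h1 : {a : k | a ^ M = 1} ⊆ ((Polynomial.nthRoots M (1 : k)).toFinset : Set k) := by
        intro a ha
        rw [Finset.mem_coe, Multiset.mem_toFinset, Polynomial.mem_nthRoots hM0]
        exact ha
      exact (Finset.finite_toSet _).subset h1
    · intro A hA
      obtain ⟨a, ha, -, ht⟩ := trace_mem (hdet A hA) (hM A hA)
      exact ⟨a, ha, ht.symm⟩
  set F : Finset (Matrix (Fin 2) (Fin 2) k) := hfin.toFinset with hF
  have hFZ : ∀ A, A ∈ F ↔ A ∈ Z := fun A => by rw [hF, Set.Finite.mem_toFinset]; rfl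
  have hinj : ∀ B ∈ Z, Function.Injective fun A : Matrix (Fin 2) (Fin 2) k => B * A := by
    intro B hB A A' h
    have h1 : B.adjugate * (B * A) = B.adjugate * (B * A') := congrArg _ h
    rw [← mul_assoc, ← mul_assoc, adjugate_mul, hdet B hB, one_smul, one_mul, one_mul] at h1
    exact h1
  have himg : ∀ B ∈ Z, F.image (fun A => B * A) = F := by
    intro B hB
    apply Finset.eq_of_subset_of_card_le
    · intro C hC
      rw [Finset.mem_image] at hC
      obtain ⟨A, hA, rfl⟩ := hC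
      rw [hFZ] at hA ⊢
      exact Z.mul_mem hB hA
    · rw [Finset.card_image_of_injective _ (hinj B hB)]
  have hsumB : ∀ (B) (_ : B ∈ Z) {R : Type} [AddCommMonoid R]
      (φ : Matrix (Fin 2) (Fin 2) k → R), ∑ A ∈ F, φ (B * A) = ∑ A ∈ F, φ A := by
    intro B hB R _ φ
    conv_rhs => rw [← himg B hB]
    rw [Finset.sum_image (fun a _ b _ h => hinj B hB h)]
  -- exponent
  have hexp : ∀ A ∈ Z, A ^ M = 1 := by
    intro A hA
    have h1 : ∃ i j : ℕ, i < j ∧ A ^ i = A ^ j := by
      by_contra hcon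
      push Not at hcon
      have h2 : Function.Injective fun i : ℕ => A ^ i := by
        intro i j hij
        rcases lt_trichotomy i j with h | h | h
        · exact absurd hij (hcon i j h)
        · exact h
        · exact absurd hij.symm (hcon j i h)
      exact (Set.infinite_range_of_injective h2) (hfin.subset (by
        rintro _ ⟨i, rfl⟩
        exact Z.pow_mem hA i))
    obtain ⟨i, j, hij, h⟩ := h1
    refine pow_eq_one (hdet A hA) (hM A hA) (Nat.sub_pos_of_lt hij) ?_
    have h3 : A ^ j = A ^ i * A ^ (j - i) := by rw [← pow_add]; congr 1; omega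
    have h4 : (fun A' : Matrix (Fin 2) (Fin 2) k => A ^ i * A') (A ^ (j - i)) =
        (fun A' : Matrix (Fin 2) (Fin 2) k => A ^ i * A') 1 := by
      change A ^ i * A ^ (j - i) = A ^ i * 1
      rw [← h3, mul_one, h]
    exact hinj _ (Z.pow_mem hA i) h4
  have hcomm : ∀ X : Matrix (Fin 2) (Fin 2) k, ∃ c : k,
      ∑ A ∈ F, A * X * A.adjugate = c • (1 : Matrix (Fin 2) (Fin 2) k) := by
    intro X
    set z := ∑ A ∈ F, A * X * A.adjugate with hz
    have hB : ∀ B ∈ Z, B * z = z * B := by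
      intro B hB
      have h1 := hsumB B hB (fun A => A * X * A.adjugate)
      have h2 : B * z * B.adjugate = z := by
        rw [hz, Finset.mul_sum, Finset.sum_mul, ← h1]
        refine Finset.sum_congr rfl fun A _ => ?_
        rw [adjugate_mul_distrib]
        simp only [mul_assoc]
      calc B * z = B * z * (B.adjugate * B) := by
            rw [adjugate_mul, hdet B hB, one_smul, mul_one]
        _ = z * B := by rw [← mul_assoc, h2]
    obtain ⟨c, hc⟩ := IsAlgClosed.exists_root z.charpoly (by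
      rw [Matrix.charpoly_degree_eq_dim]; simp)
    rw [isRoot_charpoly_iff] at hc
    obtain ⟨v, hv, hvc⟩ := hc
    let U : Submodule k (Fin 2 → k) :=
      { carrier := {y | z *ᵥ y = c • y}
        add_mem' := fun {a b} ha hb => by
          change z *ᵥ (a + b) = c • (a + b)
          rw [mulVec_add, ha, hb, smul_add]
        zero_mem' := by
          change z *ᵥ 0 = c • 0
          rw [mulVec_zero, smul_zero]
        smul_mem' := fun d y hy => by
          change z *ᵥ (d • y) = c • (d • y)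
          rw [mulVec_smul, hy, smul_comm] }
    rcases hirr U (fun B hB' y hy => by
      change z *ᵥ (B *ᵥ y) = c • (B *ᵥ y)
      have hy' : z *ᵥ y = c • y := hy
      rw [mulVec_mulVec, ← hB B hB', ← mulVec_mulVec, hy', mulVec_smul]) with h | h
    · exfalso
      have : v ∈ U := hvc
      rw [h] at this
      exact hv ((Submodule.mem_bot k).mp this)
    · refine ⟨c, ?_⟩
      apply Matrix.toLin'.injective
      ext w : 2
      have : Pi.single w (1 : k) ∈ U := by rw [h]; trivial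
      have h8 : z *ᵥ Pi.single w (1 : k) = c • Pi.single w (1 : k) := this
      simp only [LinearMap.comp_apply, LinearMap.single_apply, toLin'_apply, smul_mulVec,
        one_mulVec]
      exact h8
  -- orthogonality relations
  have hadj : ∀ A : Matrix (Fin 2) (Fin 2) k, A.adjugate = !![A 1 1, -A 0 1; -A 1 0, A 0 0] :=
    fun A => adjugate_fin_two A
  have htr0 : ∀ X : Matrix (Fin 2) (Fin 2) k,
      (∑ A ∈ F, A * X * A.adjugate).trace = F.card * X.trace := by
    intro X
    rw [trace_sum, Finset.sum_congr rfl (g := fun _ => X.trace), Finset.sum_const, nsmul_eq_mul]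
    intro A hA
    rw [trace_mul_comm, ← mul_assoc, adjugate_mul, hdet A ((hFZ A).mp hA), one_smul, one_mul]
  have hz : ∀ X : Matrix (Fin 2) (Fin 2) k, ∀ i j,
      2 * (∑ A ∈ F, A * X * A.adjugate) i j = F.card * X.trace * (1 : Matrix (Fin 2) (Fin 2) k) i j := by
    intro X i j
    obtain ⟨c, hc⟩ := hcomm X
    have h1 := htr0 X
    rw [hc, trace_smul, trace_one] at h1
    rw [hc, Matrix.smul_apply, smul_eq_mul, ← h1]
    simp
    ring
  have e1 : 2 * ∑ A ∈ F, A 0 0 * A 1 1 = (F.card : k) := by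
    have h1 := hz (Matrix.single 0 0 1) 0 0
    rw [Matrix.sum_apply] at h1
    have h2 : ∀ A : Matrix (Fin 2) (Fin 2) k,
        (A * (Matrix.single 0 0 1 : Matrix (Fin 2) (Fin 2) k) * A.adjugate) 0 0 = A 0 0 * A 1 1 := by
      intro A
      rw [hadj]
      simp [Matrix.mul_apply, Fin.sum_univ_two, Matrix.single_apply]
    rw [Finset.sum_congr rfl (fun A _ => h2 A)] at h1
    simpa [Matrix.trace_fin_two] using h1
  have e2 : 2 * ∑ A ∈ F, A 0 0 * A 0 0 = 0 := by
    have h1 := hz (Matrix.single 0 1 1) 0 1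
    rw [Matrix.sum_apply] at h1
    have h2 : ∀ A : Matrix (Fin 2) (Fin 2) k,
        (A * (Matrix.single 0 1 1 : Matrix (Fin 2) (Fin 2) k) * A.adjugate) 0 1 = A 0 0 * A 0 0 := by
      intro A
      rw [hadj]
      simp [Matrix.mul_apply, Fin.sum_univ_two, Matrix.single_apply]
    rw [Finset.sum_congr rfl (fun A _ => h2 A)] at h1
    simpa [Matrix.trace_fin_two] using h1
  have e3 : 2 * ∑ A ∈ F, A 1 1 * A 1 1 = 0 := by
    have h1 := hz (Matrix.single 1 0 1) 1 0
    rw [Matrix.sum_apply] at h1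
    have h2 : ∀ A : Matrix (Fin 2) (Fin 2) k,
        (A * (Matrix.single 1 0 1 : Matrix (Fin 2) (Fin 2) k) * A.adjugate) 1 0 = A 1 1 * A 1 1 := by
      intro A
      rw [hadj]
      simp [Matrix.mul_apply, Fin.sum_univ_two, Matrix.single_apply]
    rw [Finset.sum_congr rfl (fun A _ => h2 A)] at h1
    simpa [Matrix.trace_fin_two] using h1
  have e4 : ∑ A ∈ F, A.trace * A.trace = (F.card : k) := by
    have h1 : ∀ A ∈ F, A.trace * A.trace = A 0 0 * A 0 0 + A 1 1 * A 1 1 + 2 * (A 0 0 * A 1 1) := by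
      intro A _
      rw [trace_fin_two]; ring
    rw [Finset.sum_congr rfl h1, Finset.sum_add_distrib, Finset.sum_add_distrib, ← Finset.mul_sum,
      e1]
    have h2 : ∑ A ∈ F, A 0 0 * A 0 0 = 0 := (mul_eq_zero.mp e2).resolve_left two_ne_zero
    have h3 : ∑ A ∈ F, A 1 1 * A 1 1 = 0 := (mul_eq_zero.mp e3).resolve_left two_ne_zero
    rw [h2, h3]; ring
  -- the sum of the squares
  have e5 : ∑ A ∈ F, (A * A).trace = -(F.card : k) := by
    have h1 : ∀ A ∈ F, (A * A).trace = A.trace * A.trace - 2 := by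
      intro A hA
      rw [sq_eq (hdet A ((hFZ A).mp hA)), trace_sub, trace_smul, smul_eq_mul, trace_one]
      norm_num
    rw [Finset.sum_congr rfl h1, Finset.sum_sub_distrib, e4, Finset.sum_const, nsmul_eq_mul]
    ring
  have hsq : Set.InjOn (fun A : Matrix (Fin 2) (Fin 2) k => A * A) F := by
    intro A hA B hB h
    obtain ⟨s, hs⟩ := hodd
    have h1 : ∀ C ∈ Z, C = (C * C) ^ (s + 1) := by
      intro C hC
      have h2 := hexp C hC
      calc C = C ^ M * C := by rw [h2, one_mul]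
        _ = (C * C) ^ (s + 1) := by
          rw [← pow_two, ← pow_mul, ← pow_succ, hs]
          congr 1
    rw [h1 A ((hFZ A).mp hA), h1 B ((hFZ B).mp hB)]
    congr 1
  have himg2 : F.image (fun A => A * A) = F := by
    apply Finset.eq_of_subset_of_card_le
    · intro C hC
      rw [Finset.mem_image] at hC
      obtain ⟨A, hA, rfl⟩ := hC
      rw [hFZ] at hA ⊢
      exact Z.mul_mem hA hA
    · rw [Finset.card_image_of_injOn hsq]
  have e6 : ∑ A ∈ F, (A * A).trace = ∑ A ∈ F, A.trace := by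
    conv_rhs => rw [← himg2]
    rw [Finset.sum_image (fun a ha b hb h => hsq ha hb h)]
  -- the sum is zero
  have e7 : ∑ A ∈ F, A = (0 : Matrix (Fin 2) (Fin 2) k) := by
    set s := ∑ A ∈ F, A with hs
    have h1 : ∀ B ∈ Z, B * s = s := by
      intro B hB
      have := hsumB B hB (fun A => A)
      rw [hs, Finset.mul_sum]
      exact this
    by_contra hne
    have h2 : ∃ v : Fin 2 → k, s *ᵥ v ≠ 0 := by
      by_contra hcon
      push Not at hcon
      apply hne
      apply Matrix.toLin'.injective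
      ext w : 2
      simp only [LinearMap.comp_apply, LinearMap.single_apply, toLin'_apply]
      rw [hcon, zero_mulVec]
    obtain ⟨v, hv⟩ := h2
    obtain ⟨A, hA, hAv⟩ := hno _ hv
    apply hAv
    refine ⟨1, ?_⟩
    rw [mulVec_mulVec, h1 A hA, one_smul]
  have e8 : (F.card : k) = 0 := by
    have h1 : ∑ A ∈ F, A.trace = 0 := by
      rw [← trace_sum, e7, trace_zero]
    rw [← e6, e5, neg_eq_zero] at h1
    exact h1
  have h9 : F.card = 0 := by exact_mod_cast e8
  rw [Finset.card_eq_zero] at h9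
  have h10 : (1 : Matrix (Fin 2) (Fin 2) k) ∈ F := (hFZ 1).mpr Z.one_mem
  rw [h9] at h10
  exact absurd h10 (Finset.notMem_empty _)

/-- the orbit of each line has at least three elements -/
def Prim {Γ : Type} [Group Γ] (W : Γ →* Matrix (Fin 2) (Fin 2) k) : Prop :=
  ∀ x y : Fin 2 → k, x ≠ 0 → y ≠ 0 → ∃ g, (∀ c : k, W g *ᵥ x ≠ c • x) ∧ ∀ c : k, W g *ᵥ x ≠ c • y

theorem odd_trivial [IsAlgClosed k] [CharZero k] {Γ : Type} [Group Γ]
    {W : Γ →* Matrix (Fin 2) (Fin 2) k} (hP : Prim W) (Z : Submonoid (Matrix (Fin 2) (Fin 2) k))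
    (hc : ∀ γ, ∀ A ∈ Z, W γ * A * W γ⁻¹ ∈ Z)
    (hdet : ∀ A ∈ Z, A.det = 1) {M : ℕ} (hodd : Odd M) (hM : ∀ A ∈ Z, (A ^ M - 1).det = 0) :
    ∀ A ∈ Z, A = 1 := by
  have hcc : ∀ γ, ∀ A ∈ Z, W γ⁻¹ * A * W γ ∈ Z := by
    intro γ A hA
    have := hc γ⁻¹ A hA
    rwa [inv_inv] at this
  by_cases hno : ∀ x : Fin 2 → k, x ≠ 0 → ∃ A ∈ Z, ¬ Eig A x
  · exact absurd (no_irr Z hdet hodd hM hno) not_false
  push Not at hno
  obtain ⟨x, hx, hxZ⟩ := hno
  have hne : ∀ g, W g *ᵥ x ≠ 0 := by
    intro g h0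
    apply hx
    have h1 : W g⁻¹ *ᵥ (W g *ᵥ x) = x := by
      rw [mulVec_mulVec, ← map_mul, inv_mul_cancel, map_one, one_mulVec]
    rw [← h1, h0, mulVec_zero]
  have horb : ∀ g, ∀ A ∈ Z, Eig A (W g *ᵥ x) := by
    intro g A hA
    obtain ⟨c, hc'⟩ := hxZ _ (hcc g A hA)
    refine ⟨c, ?_⟩
    rw [conj_key, hc', mulVec_smul]
  obtain ⟨g, hg, -⟩ := hP x x hx hx
  obtain ⟨g', hg', hg''⟩ := hP x (W g *ᵥ x) hx (hne g)
  have d1 : dt x (W g *ᵥ x) ≠ 0 := fun h0 => by
    obtain ⟨c, hc'⟩ := prop_of_dt hx h0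
    exact hg c hc'
  have d2 : dt x (W g' *ᵥ x) ≠ 0 := fun h0 => by
    obtain ⟨c, hc'⟩ := prop_of_dt hx h0
    exact hg' c hc'
  have d3 : dt (W g' *ᵥ x) (W g *ᵥ x) ≠ 0 := fun h0 => by
    have h1 : dt (W g *ᵥ x) (W g' *ᵥ x) = 0 := by
      unfold dt at h0 ⊢
      linear_combination -h0
    obtain ⟨c, hc'⟩ := prop_of_dt (hne g) h1
    exact hg'' c hc'
  intro A hA
  obtain ⟨c, hcA⟩ := scalar_of_three d1 d2 d3 (hxZ A hA) (horb g A hA) (horb g' A hA)
  have h1 := hdet A hA
  rw [hcA, det_smul, det_one, mul_one, Fintype.card_fin] at h1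
  have h2 := hM A hA
  have h3 : A ^ M - 1 = (c ^ M - 1) • (1 : Matrix (Fin 2) (Fin 2) k) := by
    rw [hcA, smul_pow, one_pow, sub_smul, one_smul]
  rw [h3, det_smul, det_one, mul_one, Fintype.card_fin] at h2
  have h4 : c ^ M = 1 := sub_eq_zero.mp (pow_eq_zero_iff two_ne_zero |>.mp h2)
  obtain ⟨s, hs⟩ := hodd
  rw [hs, pow_add, pow_mul, h1, one_pow, one_mul, pow_one] at h4
  rw [hcA, h4, one_smul]

end Pool.Agent.V8H88.OM
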