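import Pool.Agent.V8H88.OM.Mix
import Pool.Agent.V8H88.OM.Odd
import Pool.Agent.V8H88.GO.Any

/-!
# Odd monomials in the eigenvalues
-/

set_option autoImplicit false

namespace Pool.Agent.V8H88.OM

open Matrix Pool.Agent.V8H88.GO Pool.Agent.V8H88.FS Polynomial

section poly

variable {R S : Type} [CommRing R] [CommRing S] {n : Type} [Fintype n] [DecidableEq n]

/-- if `A` has the eigenvalues `a`, `b`, this matrix has the eigenvalues `a ^ r * b ^ s` and
`b ^ r * a ^ s` -/
def mon (A : Matrix (Fin 2) (Fin 2) R) (r s : ℕ) : Matrix (Fin 2) (Fin 2) R :=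
  A ^ r * A.adjugate ^ s

theorem map_mon (φ : R →+* S) (A : Matrix (Fin 2) (Fin 2) R) (r s : ℕ) :
    (mon A r s).map φ = mon (A.map φ) r s := by
  have h : φ.mapMatrix (mon A r s) = mon (φ.mapMatrix A) r s := by
    unfold mon
    rw [map_mul, map_pow, map_pow, RingHom.map_adjugate]
  exact h

/-- the pairs of exponents -/
def prs (N : ℕ) : Finset (ℕ × ℕ) :=
  (Finset.range (N + 1) ×ˢ Finset.range (N + 1)).filter fun p => Odd (p.1 + p.2)

theorem mem_prs {N r s : ℕ} (hr : r ≤ N) (hs : s ≤ N) (h : Odd (r + s)) : (r, s) ∈ prs N := by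
  simp only [prs, Finset.mem_filter, Finset.mem_product, Finset.mem_range]
  exact ⟨⟨by omega, by omega⟩, h⟩

theorem of_mem_prs {N : ℕ} {p : ℕ × ℕ} (h : p ∈ prs N) : p.1 ≤ N ∧ p.2 ≤ N ∧ Odd (p.1 + p.2) := by
  simp only [prs, Finset.mem_filter, Finset.mem_product, Finset.mem_range] at h
  exact ⟨by omega, by omega, h.2⟩

/-- one of the monomials is a common eigenvalue -/
def cnd (N : ℕ) (A : Matrix n n R) (B : Matrix (Fin 2) (Fin 2) R) : R :=
  ∏ p ∈ prs N, (kroneckerMap (· * ·) A (1 : Matrix (Fin 2) (Fin 2) R) -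
    kroneckerMap (· * ·) (1 : Matrix n n R) (mon B p.1 p.2)).det

theorem map_cnd (φ : R →+* S) (N : ℕ) (A : Matrix n n R) (B : Matrix (Fin 2) (Fin 2) R) :
    φ (cnd N A B) = cnd N (A.map φ) (B.map φ) := by
  unfold cnd
  rw [map_prod]
  refine Finset.prod_congr rfl fun p _ => ?_
  rw [RingHom.map_det]
  congr 1
  have h1 := map_mon φ B p.1 p.2
  ext ⟨i, i'⟩ ⟨j, j'⟩
  have h2 := congrFun (congrFun h1 i') j'
  simp only [map_apply] at h2
  simp only [RingHom.mapMatrix_apply, map_apply, Matrix.sub_apply, kroneckerMap_apply, map_sub,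
    map_mul, h2]
  congr 1
  · congr 1
    rw [Matrix.one_apply, Matrix.one_apply]; split_ifs <;> simp
  · congr 1
    rw [Matrix.one_apply, Matrix.one_apply]; split_ifs <;> simp

/-- the determinant is an eigenvalue -/
def cnd' (A : Matrix n n R) (B : Matrix (Fin 2) (Fin 2) R) : R :=
  (A - B.det • (1 : Matrix n n R)).det

theorem map_cnd' (φ : R →+* S) (A : Matrix n n R) (B : Matrix (Fin 2) (Fin 2) R) :
    φ (cnd' A B) = cnd' (A.map φ) (B.map φ) := by
  unfold cnd'
  rw [RingHom.map_det]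
  congr 1
  have h1 : φ B.det = (B.map φ).det := RingHom.map_det φ B
  ext i j
  simp only [RingHom.mapMatrix_apply, map_apply, Matrix.sub_apply, Matrix.smul_apply, smul_eq_mul,
    map_sub, map_mul, h1]
  rw [Matrix.one_apply, Matrix.one_apply]; split_ifs <;> simp

end poly

section eig

variable {k : Type} [Field k] {n : Type} [Fintype n] [DecidableEq n]

theorem mon_isRoot {A : Matrix (Fin 2) (Fin 2) k} {a b : k}
    (h : A.charpoly = (X - C a) * (X - C b)) (r s : ℕ) :
    (mon A r s).charpoly.IsRoot (a ^ r * b ^ s) := by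
  have h1 : A.charpoly.IsRoot a := by
    rw [h, IsRoot, eval_mul]; simp
  rw [isRoot_charpoly_iff] at h1 ⊢
  obtain ⟨v, hv, hva⟩ := h1
  refine ⟨v, hv, ?_⟩
  have ht : A.trace = a + b := by
    have h2 := congrArg (fun q : k[X] => q.coeff 1) h
    simp only [charpoly_fin_two] at h2
    have h3 : (X - C a) * (X - C b) = X ^ 2 - C (a + b) * X + C (a * b) := by
      rw [C_add, C_mul]; ring
    rw [h3] at h2
    have h4 : -A.trace = -b + -a := by simpa [coeff_X, coeff_one, coeff_C] using h2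
    linear_combination -h4
  have hadj : A.adjugate = A.trace • (1 : Matrix (Fin 2) (Fin 2) k) - A := by
    rw [adjugate_fin_two]
    ext i j
    fin_cases i <;> fin_cases j <;> simp [trace_fin_two]
  have hvb : A.adjugate *ᵥ v = b • v := by
    rw [hadj, sub_mulVec, smul_mulVec, one_mulVec, hva, ht, add_smul]
    abel
  have hp : ∀ (B : Matrix (Fin 2) (Fin 2) k) (c : k), B *ᵥ v = c • v → ∀ j : ℕ,
      B ^ j *ᵥ v = c ^ j • v := by
    intro B c hB j
    induction j with
    | zero => simp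
    | succ j ih => rw [pow_succ, ← mulVec_mulVec, hB, mulVec_smul, ih, smul_smul, pow_succ, mul_comm]
  unfold mon
  rw [← mulVec_mulVec, hp _ _ hvb s, mulVec_smul, hp _ _ hva r, smul_smul, mul_comm]

theorem cnd_eq_zero {N r s : ℕ} (hr : r ≤ N) (hs : s ≤ N) (hrs : Odd (r + s)) {A : Matrix n n k}
    {B : Matrix (Fin 2) (Fin 2) k} {a b : k} (h : B.charpoly = (X - C a) * (X - C b))
    (hA : A.charpoly.IsRoot (a ^ r * b ^ s)) : cnd N A B = 0 := by
  unfold cnd
  exact Finset.prod_eq_zero (mem_prs hr hs hrs)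
    (det_kron_eq_zero _ _ _ hA (mon_isRoot h r s))

theorem cnd'_eq_zero {A : Matrix n n k} {B : Matrix (Fin 2) (Fin 2) k}
    (h : A.charpoly.IsRoot B.det) : cnd' A B = 0 := by
  rw [isRoot_charpoly_iff] at h
  obtain ⟨v, hv, h⟩ := h
  unfold cnd'
  rw [← exists_mulVec_eq_zero_iff]
  exact ⟨v, hv, by rw [sub_mulVec, smul_mulVec, one_mulVec, h, sub_self]⟩

theorem det_of_cnd' [Nonempty n] {Y : Matrix (Fin 2) (Fin 2) k} (h : cnd' (1 : Matrix n n k) Y = 0) :
    Y.det = 1 := by
  unfold cnd' at h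
  have h1 : (1 : Matrix n n k) - Y.det • (1 : Matrix n n k) = (1 - Y.det) • (1 : Matrix n n k) := by
    rw [sub_smul, one_smul]
  rw [h1, det_smul, det_one, mul_one] at h
  have h2 := (pow_eq_zero_iff (Fintype.card_ne_zero)).mp h
  exact (sub_eq_zero.mp h2).symm

/-- the exponent -/
def expo (N : ℕ) : ℕ := ∏ j ∈ (Finset.range (N + 1)).filter Odd, j

theorem expo_odd (N : ℕ) : Odd (expo N) := by
  unfold expo
  refine Finset.prod_induction _ Odd (fun a b => Odd.mul) odd_one ?_
  intro j hj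
  exact (Finset.mem_filter.mp hj).2

theorem dvd_expo {N j : ℕ} (h : j ≤ N) (hj : Odd j) : j ∣ expo N := by
  unfold expo
  exact Finset.dvd_prod_of_mem _ (Finset.mem_filter.mpr ⟨Finset.mem_range.mpr (by omega), hj⟩)

theorem of_cnd {N : ℕ} {Y : Matrix (Fin 2) (Fin 2) k} (hdet : Y.det = 1)
    (h : cnd N (1 : Matrix n n k) Y = 0) : (Y ^ expo N - 1).det = 0 := by
  unfold cnd at h
  rw [Finset.prod_eq_zero_iff] at h
  obtain ⟨p, hp, h⟩ := h
  obtain ⟨h1, h2, h3⟩ := of_mem_prs hp
  have h4 : kroneckerMap (· * ·) (1 : Matrix n n k) (1 : Matrix (Fin 2) (Fin 2) k) -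
      kroneckerMap (· * ·) (1 : Matrix n n k) (mon Y p.1 p.2) =
      kroneckerMap (· * ·) (1 : Matrix n n k) (1 - mon Y p.1 p.2) := by
    ext ⟨i, i'⟩ ⟨j, j'⟩
    simp only [Matrix.sub_apply, kroneckerMap_apply]
    rw [mul_sub]
  rw [h4, det_kronecker, det_one, one_pow, one_mul] at h
  have h5 : (1 - mon Y p.1 p.2).det = 0 := by
    by_contra hne
    exact pow_ne_zero _ hne h
  rw [← exists_mulVec_eq_zero_iff] at h5 ⊢
  obtain ⟨v, hv, h6⟩ := h5
  rw [sub_mulVec, one_mulVec, sub_eq_zero] at h6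
  refine ⟨v, hv, ?_⟩
  rw [sub_mulVec, one_mulVec, sub_eq_zero]
  have hYa : Y * Y.adjugate = 1 := by rw [mul_adjugate, hdet, one_smul]
  have haY : Y.adjugate * Y = 1 := by rw [adjugate_mul, hdet, one_smul]
  have hcomm : Commute Y Y.adjugate := by rw [Commute, SemiconjBy, hYa, haY]
  have hpow : ∀ j : ℕ, Y ^ j * Y.adjugate ^ j = 1 := fun j => by
    rw [← hcomm.mul_pow, hYa, one_pow]
  have key : ∃ j : ℕ, j ≤ N ∧ Odd j ∧ Y ^ j *ᵥ v = v := by
    rcases le_total p.2 p.1 with hle | hle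
    · refine ⟨p.1 - p.2, by omega, ?_, ?_⟩
      · rcases h3 with ⟨t, ht⟩
        exact ⟨t - p.2, by omega⟩
      · have h7 : mon Y p.1 p.2 = Y ^ (p.1 - p.2) := by
          unfold mon
          calc Y ^ p.1 * Y.adjugate ^ p.2 = Y ^ (p.1 - p.2) * (Y ^ p.2 * Y.adjugate ^ p.2) := by
                rw [← mul_assoc, ← pow_add]; congr 2; omega
            _ = _ := by rw [hpow, mul_one]
        rw [← h7, ← h6]
    · refine ⟨p.2 - p.1, by omega, ?_, ?_⟩
      · rcases h3 with ⟨t, ht⟩
        exact ⟨t - p.1, by omega⟩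
      · have h7 : mon Y p.1 p.2 = Y.adjugate ^ (p.2 - p.1) := by
          unfold mon
          calc Y ^ p.1 * Y.adjugate ^ p.2 =
              (Y ^ p.1 * Y.adjugate ^ p.1) * Y.adjugate ^ (p.2 - p.1) := by
                rw [mul_assoc, ← pow_add]; congr 2; omega
            _ = _ := by rw [hpow, one_mul]
        rw [h7] at h6
        conv_lhs => rw [h6]
        rw [mulVec_mulVec, hpow, one_mulVec]
  obtain ⟨j, hjN, hj, hjv⟩ := key
  obtain ⟨t, ht⟩ := dvd_expo hjN hj
  rw [ht]
  have : ∀ t : ℕ, Y ^ (j * t) *ᵥ v = v := by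
    intro t
    induction t with
    | zero => simp
    | succ t ih => rw [mul_add, mul_one, pow_add, ← mulVec_mulVec, hjv, ih]
  exact this t

end eig

section group

variable {k Γ : Type} [Field k] [Group Γ]
variable {n n' : Type} [Fintype n] [DecidableEq n] [Fintype n'] [DecidableEq n']
  (V : Γ →* Matrix n n k) (V' : Γ →* Matrix n' n' k) (W : Γ →* Matrix (Fin 2) (Fin 2) k)

/-- the generic matrix of the first representation -/
def g1 : Matrix n n (RB (sumRep V V') W) := (gV (sumRep V V') W).submatrix Sum.inl Sum.inl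

/-- the generic matrix of the second representation -/
def g2 : Matrix n' n' (RB (sumRep V V') W) := (gV (sumRep V V') W).submatrix Sum.inr Sum.inr

theorem g1_evg (g : Γ) : (g1 V V' W).map (evg (sumRep V V') W g) = V g := by
  ext i j; rfl

theorem g2_evg (g : Γ) : (g2 V V' W).map (evg (sumRep V V') W g) = V' g := by
  ext i j; rfl

theorem g1_map {χ : RB (sumRep V V') W →ₐ[k] k} (hχ : Triv (sumRep V V') W χ) :
    (g1 V V' W).map χ = 1 := by
  ext i j
  have h := congrFun (congrFun (map_gV _ _ hχ) (Sum.inl i)) (Sum.inl j)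
  rw [map_apply] at h
  change χ (gV (sumRep V V') W (Sum.inl i) (Sum.inl j)) = _
  rw [h, Matrix.one_apply, Matrix.one_apply]
  simp

theorem g2_map {χ : RB (sumRep V V') W →ₐ[k] k} (hχ : Triv (sumRep V V') W χ) :
    (g2 V V' W).map χ = 1 := by
  ext i j
  have h := congrFun (congrFun (map_gV _ _ hχ) (Sum.inr i)) (Sum.inr j)
  rw [map_apply] at h
  change χ (gV (sumRep V V') W (Sum.inr i) (Sum.inr j)) = _
  rw [h, Matrix.one_apply, Matrix.one_apply]
  simp

theorem cnd_val (N : ℕ) (g : Γ) : (cnd N (g1 V V' W) (gW (sumRep V V') W)).1 g =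
    cnd N (V g) (W g) := by
  have h := map_cnd (evg (sumRep V V') W g : RB (sumRep V V') W →+* k) N (g1 V V' W)
    (gW (sumRep V V') W)
  exact h

theorem cnd'_val (g : Γ) : (cnd' (g2 V V' W) (gW (sumRep V V') W)).1 g =
    cnd' (V' g) (W g) := by
  have h := map_cnd' (evg (sumRep V V') W g : RB (sumRep V V') W →+* k) (g2 V V' W)
    (gW (sumRep V V') W)
  exact h

/-- the submonoid of the matrices of the trivial points -/
def ZZ {p : Type} [Fintype p] [DecidableEq p] (U : Γ →* Matrix p p k) :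
    Submonoid (Matrix (Fin 2) (Fin 2) k) where
  carrier := {A | ∃ χ, Triv U W χ ∧ matW U W χ = A}
  mul_mem' := by
    rintro _ _ ⟨χ, h1, rfl⟩ ⟨ψ, h2, rfl⟩
    exact ⟨pmul U W χ ψ, triv_pmul U W h1 h2, matW_pmul U W χ ψ⟩
  one_mem' := ⟨evg U W 1, triv_evg U W, by
    ext i j
    change W 1 i j = _
    rw [map_one]⟩

/-- **Odd monomials.** -/
theorem monomials [IsAlgClosed k] [CharZero k] [Nonempty n'] (hW : IsIrreducible W) (hP : Prim W)
    (N : ℕ) (h1 : ∀ g, cnd N (V g) (W g) = 0) (h2 : ∀ g, cnd' (V' g) (W g) = 0) :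
    ∃ (ι : Type) (x : Fintype ι) (y : DecidableEq ι) (U : Γ →* Matrix ι ι k),
      IsMixedPower V V' ι x y U ∧ IsSubquotient W U := by
  refine exists_sub' V V' hW (entries_mem (sumRep V V') W fun χ hχ => ?_)
  have D1 : cnd N (g1 V V' W) (gW (sumRep V V') W) = 0 :=
    Subtype.ext (funext fun g => (cnd_val V V' W N g).trans (h1 g))
  have D2 : cnd' (g2 V V' W) (gW (sumRep V V') W) = 0 :=
    Subtype.ext (funext fun g => (cnd'_val V V' W g).trans (h2 g))
  have hdet : ∀ A ∈ ZZ W (sumRep V V'), A.det = 1 := by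
    rintro _ ⟨ψ, hψ, rfl⟩
    have h3 := map_cnd' (ψ : RB (sumRep V V') W →+* k) (g2 V V' W) (gW (sumRep V V') W)
    rw [D2, map_zero] at h3
    have h4 : (g2 V V' W).map (ψ : RB (sumRep V V') W →+* k) = 1 := g2_map V V' W hψ
    rw [h4] at h3
    exact det_of_cnd' h3.symm
  have hM : ∀ A ∈ ZZ W (sumRep V V'), (A ^ expo N - 1).det = 0 := by
    rintro _ ⟨ψ, hψ, rfl⟩
    have h3 := map_cnd (ψ : RB (sumRep V V') W →+* k) N (g1 V V' W) (gW (sumRep V V') W)
    rw [D1, map_zero] at h3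
    have h4 : (g1 V V' W).map (ψ : RB (sumRep V V') W →+* k) = 1 := g1_map V V' W hψ
    rw [h4] at h3
    exact of_cnd (hdet _ ⟨ψ, hψ, rfl⟩) h3.symm
  refine odd_trivial hP (ZZ W (sumRep V V')) ?_ hdet (expo_odd N) hM _ ⟨χ, hχ, rfl⟩
  rintro γ _ ⟨ψ, h3, rfl⟩
  exact ⟨pconj _ W γ ψ, triv_pconj _ W γ h3, matW_pconj _ W γ ψ⟩

variable [TopologicalSpace k] [IsTopologicalRing k] [T2Space k] [TopologicalSpace Γ]
  [IsTopologicalGroup Γ]

theorem sumRep_cont (hV : Continuous V) (hV' : Continuous V') : Continuous (sumRep V V') := by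
  refine continuous_matrix fun i j => ?_
  rcases i with i | i <;> rcases j with j | j
  · exact hV.matrix_elem _ _
  · exact continuous_const
  · exact continuous_const
  · exact hV'.matrix_elem _ _

/-- **Odd monomials on a dense set.** -/
theorem monomials_dense [IsAlgClosed k] [CharZero k] [Nonempty n'] (hV : Continuous V)
    (hV' : Continuous V') (hWc : Continuous W) (hW : IsIrreducible W) (hP : Prim W) (N : ℕ)
    (D : Set Γ) (hD : Dense D) (h1 : ∀ g ∈ D, cnd N (V g) (W g) = 0)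
    (h2 : ∀ g ∈ D, cnd' (V' g) (W g) = 0) :
    ∃ (ι : Type) (x : Fintype ι) (y : DecidableEq ι) (U : Γ →* Matrix ι ι k),
      IsMixedPower V V' ι x y U ∧ IsSubquotient W U := by
  have hs := sumRep_cont V V' hV hV'
  refine monomials V V' W hW hP N (fun g => ?_) (fun g => ?_)
  · have h3 := Continuous.ext_on hD (RB_cont (sumRep V V') W hs hWc _
      (cnd N (g1 V V' W) (gW (sumRep V V') W)).2) (continuous_const (y := (0 : k))) (by
      intro g hg
      change (cnd N (g1 V V' W) (gW (sumRep V V') W)).1 g = 0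
      rw [cnd_val, h1 g hg])
    rw [← cnd_val V V' W N g]
    exact congrFun h3 g
  · have h3 := Continuous.ext_on hD (RB_cont (sumRep V V') W hs hWc _
      (cnd' (g2 V V' W) (gW (sumRep V V') W)).2) (continuous_const (y := (0 : k))) (by
      intro g hg
      change (cnd' (g2 V V' W) (gW (sumRep V V') W)).1 g = 0
      rw [cnd'_val, h2 g hg])
    rw [← cnd'_val V V' W g]
    exact congrFun h3 g

end group

end Pool.Agent.V8H88.OM
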